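import Mathlib
import Pool.Agent.Lib.MP_95e7ec_an.Defs
import Pool.Agent.Lib.MP_95e7ec_an.LogFinal

/-!
# The Hilbert numbers grow at least like `n² (log n)²`

`hilbertNumber n` is the supremum of the number of limit cycles over all real planar polynomial
systems of degree at most `n`, in `ℕ ∪ {∞}`. The result is `H_n ≥ (1/8 - ε) n² (log₂ n)²` for all
large `n`. It follows from the recursion `H_{2n+10} ≥ 4 H_n + n² log₂ n (1 - o(1))`
(`hilbert_recursion2` in `LogFinal.lean` and `le_logGain` in `LogHilbert.lean`).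
-/

set_option autoImplicit false

namespace Pool.Agent.Lib.MP_95e7ec_an.Old.LogSquaredGrowth

open Pool.Agent.Lib.MP_95e7ec_an

/-- **Lower bound for the Hilbert numbers.** For every `ε > 0` one has
`H_n ≥ (1/8 - ε) n² (log₂ n)²` for all large `n`. -/
theorem result (ε : ℝ) (hε : 0 < ε) : ∃ n0 : ℕ, ∀ n : ℕ, n0 ≤ n →
    ENNReal.ofReal ((1 / 8 - ε) * (n : ℝ) ^ 2 * Real.logb 2 (n : ℝ) ^ 2) ≤
      ((hilbertNumber n : ℕ∞) : ENNReal) :=
  hilbert_log_sq ε hε

end Pool.Agent.Lib.MP_95e7ec_an.Old.LogSquaredGrowth
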