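import Mathlib
import Pool.Agent.Lib.MP_95e7ec_an.Defs
import Pool.Agent.Lib.MP_95e7ec_an.AvgDefs
import Pool.Agent.Lib.MP_95e7ec_an.PlaneMain

/-!
# The mean number of all closed orbits of a polynomial system in the whole plane

For every real planar polynomial field `X` of degree at most `2 m` the number of all the closed
orbits in the plane, averaged over the fields `e^{iα} (X + c (1+x²+y²)^m)`, `|c| ≤ σ`,
`0 < α < π`, is bounded by a polynomial in `m` times a logarithm.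
-/

set_option autoImplicit false

open Set Filter Topology MeasureTheory
open scoped ENNReal

namespace Pool.Agent.Results.MP_95e7ec_an.MeanPlane

open Pool.Agent.Lib.MP_95e7ec_an

/-- The number of all the closed orbits in the plane of the field
`e^{iα} (X + c (1+x²+y²)^m)`, where `X = (P,Q)`. -/
noncomputable def orbitNumber (m : ℕ) (P Q : MvPolynomial (Fin 2) ℝ) (c : ℝ × ℝ) (α : ℝ) : ℝ≥0∞ :=
  (({C : Set (ℝ × ℝ) | IsClosedOrbit (turn α
    (vf (P + MvPolynomial.C c.1 * (1 + MvPolynomial.X 0 ^ 2 + MvPolynomial.X 1 ^ 2) ^ m)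
      (Q + MvPolynomial.C c.2 * (1 + MvPolynomial.X 0 ^ 2 + MvPolynomial.X 1 ^ 2) ^ m)))
    C}.encard : ℕ∞) : ℝ≥0∞)

theorem orbitNumber_eq (m : ℕ) (P Q : MvPolynomial (Fin 2) ℝ) (c : ℝ × ℝ) :
    orbitNumber m P Q c = orbitSum (fun _ => 1)
      (vf (P + MvPolynomial.C c.1 * wPoly m) (Q + MvPolynomial.C c.2 * wPoly m)) Set.univ := by
  funext α
  rw [orbitSum_one]
  simp only [Set.subset_univ, and_true]
  rfl

/-- **Mean number of all closed orbits in the plane.** There is an absolute constant `K` such that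
for every `m ≥ 1`, every real planar polynomial field `X = (P,Q)` of degree at most `2 m` and every
`ρ > 0` with `|X(x,y)| ≤ ρ (1+x²+y²)^m` on the plane the following holds. For `c ∈ ℝ²` and
`α ∈ (0,π)` let `N(c,α)` be the number of all the closed orbits in the plane of the field
`e^{iα} (X + c (1+x²+y²)^m)`. Then `N(c,·)` is measurable and there is a measurable function `H`
with `∫_0^π N(c,α) dα ≤ H(c)` for `|c| ≤ ρ` such that for every `0 < σ ≤ ρ` the integral of `H`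
over `|c| ≤ σ` is at most `K m³ σ² (1 + log₂ (ρ / σ))` and at most `K m² ρ² (1 + log₂ m)`. -/
theorem result : ∃ K : ℝ, ∀ m : ℕ, 1 ≤ m → ∀ P Q : MvPolynomial (Fin 2) ℝ,
    P.totalDegree ≤ 2 * m → Q.totalDegree ≤ 2 * m → ∀ ρ : ℝ, 0 < ρ →
    (∀ z : ℝ × ℝ, nm (vf P Q z) ≤ ρ * (1 + z.1 ^ 2 + z.2 ^ 2) ^ m) →
    (∀ c : ℝ × ℝ, AEMeasurable (orbitNumber m P Q c) (volume.restrict (Set.Ioo 0 Real.pi))) ∧
    ∃ H : ℝ × ℝ → ℝ≥0∞, Measurable H ∧
      (∀ c : ℝ × ℝ, nm c ≤ ρ → ∫⁻ α in Set.Ioo 0 Real.pi, orbitNumber m P Q c α ≤ H c) ∧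
      ∀ σ : ℝ, 0 < σ → σ ≤ ρ →
        ∫⁻ c in {c : ℝ × ℝ | nm c ≤ σ}, H c ≤
          ENNReal.ofReal (K * m ^ 3 * σ ^ 2 * (1 + Real.logb 2 (ρ / σ))) ∧
        ∫⁻ c in {c : ℝ × ℝ | nm c ≤ σ}, H c ≤
          ENNReal.ofReal (K * m ^ 2 * ρ ^ 2 * (1 + Real.logb 2 m)) := by
  obtain ⟨K, hK⟩ := plane_main
  refine ⟨K, fun m hm P Q hP hQ ρ hρ hb => ⟨fun c => ?_, ?_⟩⟩
  · have hP' := totalDegree_add_wPoly hP c.1
    have hQ' := totalDegree_add_wPoly hQ c.2
    rw [orbitNumber_eq, vf_eq_vfc hP' hQ']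
    exact orbitSum_aemeasurable _ isOpen_univ measurable_const
  · obtain ⟨H, h1, h2, h3⟩ := hK m hm P Q hP hQ ρ hρ fun z => by
      have h := hb z
      have h4 : sq1 z ^ (2 * m) = (1 + z.1 ^ 2 + z.2 ^ 2) ^ m := by
        rw [pow_mul, sq1, Real.sq_sqrt (by positivity), add_assoc]
      rw [h4]
      exact h
    refine ⟨H, h1, fun c hc => ?_, h3⟩
    rw [orbitNumber_eq]
    exact h2 c hc

end Pool.Agent.Results.MP_95e7ec_an.MeanPlane
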