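import Mathlib
import Pool.Agent.Lib.MP_95e7ec_an.Rw.FinalW

/-!
# Hilbert's 16th problem for most rotations of a polynomial field
-/

set_option autoImplicit false

open Set Filter Topology MeasureTheory
open scoped ENNReal

namespace Pool.Agent.Lib.MP_95e7ec_an.Old.MostRotations

open Pool.Agent.Lib.MP_95e7ec_an

/-- **Hilbert's 16th problem for most rotations of a field.** Let `X = (P,Q)` be a real planar
polynomial field of degree at most `n`, `n ≥ 1`, and `0 < ε ≤ 1`. Then the set of all the angles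
`a ∈ [0,2π]` for which the turned field `e^{ia} X = (cos a P - sin a Q, sin a P + cos a Q)` has
infinitely many closed orbits, or more than `10¹⁰ n⁶ log (2n/ε) / ε` of them, has (outer) Lebesgue
measure at most `ε`. -/
theorem result (n : ℕ) (hn : 1 ≤ n) (P Q : MvPolynomial (Fin 2) ℝ) (hP : P.totalDegree ≤ n)
    (hQ : Q.totalDegree ≤ n) (ε : ℝ) (hε : 0 < ε) (hε1 : ε ≤ 1) :
    volume {a : ℝ | a ∈ Set.Icc 0 (2 * Real.pi) ∧
      ¬ ({C : Set (ℝ × ℝ) | IsClosedOrbit (turn a (vf P Q)) C}.Finite ∧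
        ({C : Set (ℝ × ℝ) | IsClosedOrbit (turn a (vf P Q)) C}.ncard : ℝ) ≤
          10 ^ 10 * n ^ 6 * Real.log (2 * n / ε) / ε)} ≤ ENNReal.ofReal ε := by
  have hn1 : (1 : ℝ) ≤ n := by exact_mod_cast hn
  have hlog : 0 ≤ Real.log (2 * n / ε) := by
    apply Real.log_nonneg
    rw [le_div_iff₀ hε]
    linarith
  refine le_trans (measure_mono ?_) (most_angles3 hn hP hQ hε hε1)
  rintro a ⟨ha, h⟩
  refine ⟨ha, ?_⟩
  by_contra hcon
  rw [not_lt, lamW] at hcon
  apply h
  have hfin : {C : Set (ℝ × ℝ) | IsClosedOrbit (turn a (vf P Q)) C}.Finite := by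
    by_contra hinf
    rw [allN, Set.Infinite.encard_eq hinf] at hcon
    simp at hcon
  refine ⟨hfin, ?_⟩
  have h1 : allN (turn a (vf P Q)) =
      ENNReal.ofReal ({C : Set (ℝ × ℝ) | IsClosedOrbit (turn a (vf P Q)) C}.ncard : ℝ) := by
    rw [allN, ← hfin.cast_ncard_eq, ENNReal.ofReal_natCast]
    simp
  rw [h1] at hcon
  exact (ENNReal.ofReal_le_ofReal_iff (by positivity)).1 hcon

end Pool.Agent.Lib.MP_95e7ec_an.Old.MostRotations
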