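import Mathlib
import Pool.Agent.Lib.MP_95e7ec_an.Rz.FinalA

/-!
# Quadratic fields: the mean number of closed orbits over all the rotations

For every real planar quadratic field `X` the mean, over all `a` in `[0, 2π]`, of the number of the
closed orbits of `e^{ia} X` in the whole plane is at most `3/2`.
-/

set_option autoImplicit false

open scoped ENNReal
open MeasureTheory

namespace Pool.Agent.Lib.MP_95e7ec_an.Old.QuadraticMean

open Pool.Agent.Lib.MP_95e7ec_an

/-- **The mean number of closed orbits of a quadratic field.** Let `X = (P, Q)` be a real planar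
polynomial field of degree at most `2`. There is a measurable function `H` which at every `a` is at
least the number of all closed orbits of `e^{ia} X` in the plane, and whose integral over `[0, 2π]`
is at most `3π`. -/
theorem result (P Q : MvPolynomial (Fin 2) ℝ) (hP : P.totalDegree ≤ 2) (hQ : Q.totalDegree ≤ 2) :
    ∃ H : ℝ → ℝ≥0∞, Measurable H ∧
      (∀ a, (({C : Set (ℝ × ℝ) | IsClosedOrbit (turn a (vf P Q)) C}.encard : ℕ∞) : ℝ≥0∞) ≤
        H a) ∧
      ∫⁻ a in Set.Icc 0 (2 * Real.pi), H a ≤ ENNReal.ofReal (3 * Real.pi) :=
  quad_mean hP hQ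

end Pool.Agent.Lib.MP_95e7ec_an.Old.QuadraticMean
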